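import Pool.Agent.W716.FV.StmA

/-!
# FV-AI: trace and Hilbert-Schmidt norm of `A`
-/

set_option autoImplicit false

open MeasureTheory

namespace Pool.Agent.W125.FV

open Pool.Agent.W716.FV

variable {n : ℕ}

lemma gr_inner (u : E n → ℝ) (x v : E n) : (inner ℝ (gr u x) v : ℝ) = fderiv ℝ u x v := by
  unfold gr
  rw [InnerProductSpace.toDual_symm_apply]

lemma meas_xi (η : E n) : Measurable (xi η : E n × ℝ → E n) := by
  unfold xi
  exact measurable_fst.add (measurable_snd.smul_const η)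

/-- domination by the moments -/
lemma integ (hPM : PMoments) {F : Type} [NormedAddCommGroup F] {f : E n × ℝ → F}
    (hf : AEStronglyMeasurable f (P n)) (j k : ℕ) (hj : j ≤ 4) (C : ℝ)
    (h : ∀ w, ‖f w‖ ≤ C * (|w.2| ^ j * ‖w.1‖ ^ k)) : Integrable f (P n) :=
  ((hPM n).2.1 j k hj |>.const_mul C).mono' hf (Filter.Eventually.of_forall h)

section main

variable {R : ℝ} {u : E n → ℝ}

lemma AA_int (hPM : PMoments) (hGF : GoodFacts) (hR : 0 ≤ R) (hu : Good R u) (η : E n) :
    Integrable (fun w : E n × ℝ => w.2 • (fderiv ℝ u (xi η w)).smulRight w.1) (P n) := by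
  obtain ⟨h1, h2, h3, h4, h5, h6⟩ := hGF n R u hR hu
  have hm : Measurable (fun w : E n × ℝ => fderiv ℝ u (xi η w)) :=
    (measurable_fderiv ℝ u).comp (meas_xi η)
  refine integ hPM ?_ 1 1 (by norm_num) R fun w => ?_
  · refine AEStronglyMeasurable.smul measurable_snd.aestronglyMeasurable ?_
    have e : (fun w : E n × ℝ => (fderiv ℝ u (xi η w)).smulRight w.1) =
        fun w => ContinuousLinearMap.smulRightL ℝ (E n) (E n) (fderiv ℝ u (xi η w)) w.1 := rfl
    rw [e]
    exact (ContinuousLinearMap.smulRightL ℝ (E n) (E n)).aestronglyMeasurable_comp₂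
      hm.aestronglyMeasurable measurable_fst.aestronglyMeasurable
  · rw [norm_smul, Real.norm_eq_abs, ContinuousLinearMap.norm_smulRight_apply, pow_one, pow_one]
    have h7 : ‖fderiv ℝ u (xi η w)‖ ≤ R := by
      have h8 := h1 (xi η w)
      unfold gr at h8
      rwa [LinearIsometryEquiv.norm_map] at h8
    calc |w.2| * (‖fderiv ℝ u (xi η w)‖ * ‖w.1‖) ≤ |w.2| * (R * ‖w.1‖) := by gcongr
      _ = R * (|w.2| * ‖w.1‖) := by ring

lemma AA_inner (hPM : PMoments) (hGF : GoodFacts) (hR : 0 ≤ R) (hu : Good R u) (η v a : E n) :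
    (inner ℝ (AA u η v) a : ℝ) =
      ∫ w, w.2 * inner ℝ (gr u (xi η w)) v * inner ℝ w.1 a ∂(P n) := by
  have hint := AA_int hPM hGF hR hu η
  unfold AA
  rw [ContinuousLinearMap.integral_apply hint v, real_inner_comm, ← integral_inner]
  · refine integral_congr_ae (Filter.Eventually.of_forall fun w => ?_)
    simp only [smul_apply, ContinuousLinearMap.smulRight_apply]
    rw [inner_smul_right, inner_smul_right, gr_inner, real_inner_comm]
    ring
  · exact hint.apply_continuousLinearMap v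

lemma meas_G (hGF : GoodFacts) (hR : 0 ≤ R) (hu : Good R u) (η : E n) :
    Measurable (fun w : E n × ℝ => gr u (xi η w)) :=
  (hGF n R u hR hu).2.2.1.comp (meas_xi η)

/-- integrability of `κ^j ⟨G, v⟩ ⟨g, a⟩` -/
lemma int_Gg (hPM : PMoments) (hGF : GoodFacts) (hR : 0 ≤ R) (hu : Good R u) (η v a : E n)
    (j : ℕ) (hj : j ≤ 4) :
    Integrable (fun w : E n × ℝ => w.2 ^ j * inner ℝ (gr u (xi η w)) v * inner ℝ w.1 a) (P n) := by
  have hG := meas_G hGF hR hu η
  refine integ hPM ?_ j 1 hj (R * ‖v‖ * ‖a‖) fun w => ?_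
  · exact (((measurable_snd.pow_const j).mul (hG.inner_const)).mul
      (measurable_fst.inner_const)).aestronglyMeasurable
  · have h1 : |(inner ℝ (gr u (xi η w)) v : ℝ)| ≤ R * ‖v‖ :=
      (abs_real_inner_le_norm _ _).trans
        (mul_le_mul_of_nonneg_right ((hGF n R u hR hu).1 _) (norm_nonneg _))
    have h2 : |(inner ℝ w.1 a : ℝ)| ≤ ‖w.1‖ * ‖a‖ := abs_real_inner_le_norm _ _
    rw [Real.norm_eq_abs, abs_mul, abs_mul, abs_pow, pow_one]
    calc |w.2| ^ j * |(inner ℝ (gr u (xi η w)) v : ℝ)| * |(inner ℝ w.1 a : ℝ)|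
        ≤ |w.2| ^ j * (R * ‖v‖) * (‖w.1‖ * ‖a‖) := by gcongr
      _ = R * ‖v‖ * ‖a‖ * (|w.2| ^ j * ‖w.1‖) := by ring

/-- integrability of `κ^j ⟨G, v⟩` -/
lemma int_G (hPM : PMoments) (hGF : GoodFacts) (hR : 0 ≤ R) (hu : Good R u) (η v : E n)
    (j : ℕ) (hj : j ≤ 4) :
    Integrable (fun w : E n × ℝ => w.2 ^ j * inner ℝ (gr u (xi η w)) v) (P n) := by
  have hG := meas_G hGF hR hu η
  refine integ hPM ?_ j 0 hj (R * ‖v‖) fun w => ?_
  · exact ((measurable_snd.pow_const j).mul (hG.inner_const)).aestronglyMeasurable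
  · have h1 : |(inner ℝ (gr u (xi η w)) v : ℝ)| ≤ R * ‖v‖ :=
      (abs_real_inner_le_norm _ _).trans
        (mul_le_mul_of_nonneg_right ((hGF n R u hR hu).1 _) (norm_nonneg _))
    rw [Real.norm_eq_abs, abs_mul, abs_pow, pow_zero, mul_one, mul_comm (R * ‖v‖)]
    exact mul_le_mul_of_nonneg_left h1 (by positivity)

lemma int_pow (hPM : PMoments) (j : ℕ) (hj : j ≤ 4) (c : ℝ) :
    Integrable (fun w : E n × ℝ => c * w.2 ^ j) (P n) := by
  refine integ hPM ?_ j 0 hj |c| fun w => ?_
  · exact ((measurable_snd.pow_const j).const_mul c).aestronglyMeasurable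
  · rw [Real.norm_eq_abs, abs_mul, abs_pow, pow_zero, mul_one]

end main

theorem main (hPM : PMoments) (hGF : GoodFacts) (hXI : XIdent) : AIdent := by
  intro n R u hR hu η
  obtain ⟨hprob, -, -, hk1, hk2, hk0, -, hvar, -⟩ := hPM n
  obtain ⟨x1, x2, x3, x4, x5⟩ := hXI n R u hR hu η
  obtain ⟨g1, g2, g3, g4, g5, g6⟩ := hGF n R u hR hu
  have hb : ∀ i : Fin n, (EuclideanSpace.basisFun (Fin n) ℝ) i = EuclideanSpace.single i 1 :=
    fun i => EuclideanSpace.basisFun_apply _ _ _
  have hXint : ∀ j : ℕ, j ≤ 4 → Integrable (fun w : E n × ℝ => w.2 ^ j * XX R u η w) (P n) := by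
    intro j hj
    have e : (fun w : E n × ℝ => w.2 ^ j * XX R u η w) = fun w =>
        (R ^ 2 + ‖η‖ ^ 2) * w.2 ^ j - 2 * (w.2 ^ j * inner ℝ (gr u (xi η w)) η) := by
      funext w
      unfold XX
      ring
    rw [e]
    exact (int_pow hPM j hj _).sub ((int_G hPM hGF hR hu η η j hj).const_mul 2)
  have hX0 : Integrable (fun w : E n × ℝ => XX R u η w) (P n) := by
    have := hXint 0 (by norm_num)
    simpa using this
  constructor
  · -- the trace
    rw [LinearMap.trace_eq_sum_inner _ (EuclideanSpace.basisFun (Fin n) ℝ)]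
    have h1 : ∀ i : Fin n, (inner ℝ ((EuclideanSpace.basisFun (Fin n) ℝ) i)
        ((AA u η : E n →ₗ[ℝ] E n) ((EuclideanSpace.basisFun (Fin n) ℝ) i)) : ℝ) =
        ∫ w, w.2 ^ 1 * inner ℝ (gr u (xi η w)) ((EuclideanSpace.basisFun (Fin n) ℝ) i) *
          inner ℝ w.1 ((EuclideanSpace.basisFun (Fin n) ℝ) i) ∂(P n) := by
      intro i
      rw [real_inner_comm]
      have := AA_inner hPM hGF hR hu η ((EuclideanSpace.basisFun (Fin n) ℝ) i)
        ((EuclideanSpace.basisFun (Fin n) ℝ) i)
      simp only [pow_one]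
      exact this
    rw [Finset.sum_congr rfl fun i _ => h1 i, ← integral_finsetSum _ fun i _ =>
      int_Gg hPM hGF hR hu η _ _ 1 (by norm_num)]
    have h2 : ∫ w, ∑ i, w.2 ^ 1 * inner ℝ (gr u (xi η w)) ((EuclideanSpace.basisFun (Fin n) ℝ) i) *
          inner ℝ w.1 ((EuclideanSpace.basisFun (Fin n) ℝ) i) ∂(P n) =
        ∫ w, (w.2 * u (xi η w) - w.2 ^ 2 * inner ℝ (gr u (xi η w)) η) ∂(P n) := by
      refine integral_congr_ae ?_
      filter_upwards [g6 η] with w hw
      have h3 := g4 _ hw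
      have h4 : ∑ i, w.2 ^ 1 * inner ℝ (gr u (xi η w)) ((EuclideanSpace.basisFun (Fin n) ℝ) i) *
          inner ℝ w.1 ((EuclideanSpace.basisFun (Fin n) ℝ) i) =
          w.2 * inner ℝ (gr u (xi η w)) w.1 := by
        rw [← (EuclideanSpace.basisFun (Fin n) ℝ).sum_inner_mul_inner (gr u (xi η w)) w.1,
          Finset.mul_sum]
        refine Finset.sum_congr rfl fun i _ => ?_
        rw [real_inner_comm w.1]
        ring
      rw [h4]
      have h5 : w.1 = xi η w - w.2 • η := by unfold xi; abel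
      conv_lhs => rw [h5]
      rw [inner_sub_right, inner_smul_right, h3]
      ring
    have hu1 : Integrable (fun w : E n × ℝ => w.2 * u (xi η w)) (P n) := by
      have e : (fun w : E n × ℝ => w.2 * u (xi η w)) =ᵐ[P n] fun w =>
          (∑ i, w.2 ^ 1 * inner ℝ (gr u (xi η w)) ((EuclideanSpace.basisFun (Fin n) ℝ) i) *
          inner ℝ w.1 ((EuclideanSpace.basisFun (Fin n) ℝ) i)) +
          w.2 ^ 2 * inner ℝ (gr u (xi η w)) η := by
        filter_upwards [g6 η] with w hw
        have h3 := g4 _ hw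
        have h4 : ∑ i, w.2 ^ 1 * inner ℝ (gr u (xi η w)) ((EuclideanSpace.basisFun (Fin n) ℝ) i) *
            inner ℝ w.1 ((EuclideanSpace.basisFun (Fin n) ℝ) i) =
            w.2 * inner ℝ (gr u (xi η w)) w.1 := by
          rw [← (EuclideanSpace.basisFun (Fin n) ℝ).sum_inner_mul_inner (gr u (xi η w)) w.1,
            Finset.mul_sum]
          refine Finset.sum_congr rfl fun i _ => ?_
          rw [real_inner_comm w.1]
          ring
        rw [h4]
        have h5 : w.1 = xi η w - w.2 • η := by unfold xi; abel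
        have h6 : (inner ℝ (gr u (xi η w)) w.1 : ℝ) =
            u (xi η w) - w.2 * inner ℝ (gr u (xi η w)) η := by
          conv_lhs => rw [h5]
          rw [inner_sub_right, inner_smul_right, h3]
        rw [h6]
        ring
      refine Integrable.congr ?_ e.symm
      exact (integrable_finsetSum _ fun i _ => int_Gg hPM hGF hR hu η _ _ 1 (by norm_num)).add
        (int_G hPM hGF hR hu η η 2 (by norm_num))
    rw [h2, integral_sub hu1 (int_G hPM hGF hR hu η η 2 (by norm_num))]
    have h6 : ∫ w, (1 + w.2 ^ 2) * XX R u η w ∂(P n) =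
        EX R u η + ((R ^ 2 + ‖η‖ ^ 2) * (1 / 3) -
          2 * ∫ w, w.2 ^ 2 * inner ℝ (gr u (xi η w)) η ∂(P n)) := by
      have e : (fun w : E n × ℝ => (1 + w.2 ^ 2) * XX R u η w) = fun w =>
          XX R u η w + ((R ^ 2 + ‖η‖ ^ 2) * w.2 ^ 2 -
            2 * (w.2 ^ 2 * inner ℝ (gr u (xi η w)) η)) := by
        funext w
        unfold XX
        ring
      have i1 : Integrable (fun w : E n × ℝ => (R ^ 2 + ‖η‖ ^ 2) * w.2 ^ 2) (P n) :=
        int_pow hPM 2 (by norm_num) _
      have i2 : Integrable (fun w : E n × ℝ => 2 * (w.2 ^ 2 * inner ℝ (gr u (xi η w)) η)) (P n) :=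
        (int_G hPM hGF hR hu η η 2 (by norm_num)).const_mul 2
      have i3 : Integrable (fun w : E n × ℝ => (R ^ 2 + ‖η‖ ^ 2) * w.2 ^ 2 -
            2 * (w.2 ^ 2 * inner ℝ (gr u (xi η w)) η)) (P n) := i1.sub i2
      rw [e, integral_add hX0 i3, x4, integral_sub i1 i2, integral_const_mul,
        integral_const_mul, hk2]
    have h7 : ∫ w, w.2 * u (xi η w) ∂(P n) = (R ^ 2 + ‖η‖ ^ 2) / 6 - SS R u η := by
      unfold SS
      ring
    rw [x5] at h6
    rw [h7]
    linarith
  · -- the Hilbert-Schmidt norm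
    have key : ∀ i : Fin n, ‖AA u η (EuclideanSpace.single i 1)‖ ^ 2 ≤
        1 / 3 * ∫ w, (inner ℝ (gr u (xi η w) - η) (EuclideanSpace.single i 1) : ℝ) ^ 2 ∂(P n) := by
      intro i
      set v : E n := EuclideanSpace.single i 1 with hv
      set a : E n := AA u η v with ha
      have h1 : ‖a‖ ^ 2 = ∫ w, w.2 ^ 1 * inner ℝ (gr u (xi η w)) v * inner ℝ w.1 a ∂(P n) := by
        rw [← real_inner_self_eq_norm_sq]
        simp only [pow_one]
        exact AA_inner hPM hGF hR hu η v a
      have h2 : ∫ w, w.2 * ((inner ℝ η v : ℝ) * inner ℝ w.1 a) ∂(P n) = 0 :=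
        hk0 (fun x => (inner ℝ η v : ℝ) * inner ℝ x a)
      have hi1 := int_Gg hPM hGF hR hu η v a 1 (by norm_num)
      have hi2 : Integrable (fun w : E n × ℝ => w.2 * ((inner ℝ η v : ℝ) * inner ℝ w.1 a))
          (P n) := by
        refine integ hPM ?_ 1 1 (by norm_num) (|(inner ℝ η v : ℝ)| * ‖a‖) fun w => ?_
        · exact (measurable_snd.mul ((measurable_fst.inner_const).const_mul _)).aestronglyMeasurable
        · have h3 : |(inner ℝ w.1 a : ℝ)| ≤ ‖w.1‖ * ‖a‖ := abs_real_inner_le_norm _ _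
          rw [Real.norm_eq_abs, abs_mul, abs_mul, pow_one, pow_one]
          calc |w.2| * (|(inner ℝ η v : ℝ)| * |(inner ℝ w.1 a : ℝ)|)
              ≤ |w.2| * (|(inner ℝ η v : ℝ)| * (‖w.1‖ * ‖a‖)) := by gcongr
            _ = |(inner ℝ η v : ℝ)| * ‖a‖ * (|w.2| * ‖w.1‖) := by ring
      have h3 : ‖a‖ ^ 2 = ∫ w, w.2 * inner ℝ (gr u (xi η w) - η) v * inner ℝ w.1 a ∂(P n) := by
        rw [h1, ← sub_zero (∫ w, w.2 ^ 1 * inner ℝ (gr u (xi η w)) v * inner ℝ w.1 a ∂(P n)), ← h2,
          ← integral_sub hi1 hi2]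
        refine integral_congr_ae (Filter.Eventually.of_forall fun w => ?_)
        simp only
        rw [inner_sub_left]
        ring
      have hG := meas_G hGF hR hu η
      have hY : Measurable (fun w : E n × ℝ => (inner ℝ (gr u (xi η w) - η) v : ℝ)) :=
        (hG.sub_const η).inner_const
      have hYb : ∀ w : E n × ℝ, |(inner ℝ (gr u (xi η w) - η) v : ℝ)| ≤ (R + ‖η‖) * ‖v‖ := by
        intro w
        refine (abs_real_inner_le_norm _ _).trans (mul_le_mul_of_nonneg_right ?_ (norm_nonneg _))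
        exact (norm_sub_le _ _).trans (add_le_add (g1 _) le_rfl)
      have hY2 : Integrable (fun w : E n × ℝ => (inner ℝ (gr u (xi η w) - η) v : ℝ) ^ 2)
          (P n) := by
        refine integ hPM (hY.pow_const 2).aestronglyMeasurable 0 0 (by norm_num)
          (((R + ‖η‖) * ‖v‖) ^ 2) fun w => ?_
        rw [Real.norm_eq_abs, abs_pow, pow_zero, pow_zero, mul_one, mul_one]
        exact pow_le_pow_left₀ (abs_nonneg _) (hYb w) 2
      have hg2 : Integrable (fun w : E n × ℝ => w.2 ^ 2 * ((inner ℝ w.1 a : ℝ) * inner ℝ w.1 a))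
          (P n) := by
        refine integ hPM ?_ 2 2 (by norm_num) (‖a‖ ^ 2) fun w => ?_
        · exact ((measurable_snd.pow_const 2).mul ((measurable_fst.inner_const).mul
            (measurable_fst.inner_const))).aestronglyMeasurable
        · have h3 : |(inner ℝ w.1 a : ℝ)| ≤ ‖w.1‖ * ‖a‖ := abs_real_inner_le_norm _ _
          rw [Real.norm_eq_abs, abs_mul, abs_mul, abs_pow]
          calc |w.2| ^ 2 * (|(inner ℝ w.1 a : ℝ)| * |(inner ℝ w.1 a : ℝ)|)
              ≤ |w.2| ^ 2 * ((‖w.1‖ * ‖a‖) * (‖w.1‖ * ‖a‖)) := by gcongr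
            _ = ‖a‖ ^ 2 * (|w.2| ^ 2 * ‖w.1‖ ^ 2) := by ring
      have h4 := hvar a a
      rw [real_inner_self_eq_norm_sq] at h4
      have h5 : ‖a‖ ^ 2 ≤ ∫ w, (1 / 6 * (inner ℝ (gr u (xi η w) - η) v : ℝ) ^ 2 +
          3 / 2 * (w.2 ^ 2 * ((inner ℝ w.1 a : ℝ) * inner ℝ w.1 a))) ∂(P n) := by
        rw [h3]
        have hi3 : Integrable (fun w : E n × ℝ =>
            w.2 * inner ℝ (gr u (xi η w) - η) v * inner ℝ w.1 a) (P n) := by
          refine (hi1.sub hi2).congr (Filter.Eventually.of_forall fun w => ?_)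
          simp only [Pi.sub_apply]
          rw [inner_sub_left]
          ring
        refine integral_mono hi3 ((hY2.const_mul _).add (hg2.const_mul _)) fun w => ?_
        simp only [Pi.add_apply]
        nlinarith [sq_nonneg ((inner ℝ (gr u (xi η w) - η) v : ℝ) - 3 * (w.2 * inner ℝ w.1 a))]
      rw [integral_add (hY2.const_mul _) (hg2.const_mul _), integral_const_mul,
        integral_const_mul, h4] at h5
      linarith
    calc ∑ i, ‖AA u η (EuclideanSpace.single i 1)‖ ^ 2
        ≤ ∑ i : Fin n, 1 / 3 *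
          ∫ w, (inner ℝ (gr u (xi η w) - η) (EuclideanSpace.single i 1) : ℝ) ^ 2 ∂(P n) :=
          Finset.sum_le_sum fun i _ => key i
      _ ≤ EX R u η / 3 := by
        have hG := meas_G hGF hR hu η
        rw [← Finset.mul_sum, ← integral_finsetSum]
        · have h1 : ∫ w, ∑ i : Fin n,
              (inner ℝ (gr u (xi η w) - η) (EuclideanSpace.single i 1) : ℝ) ^ 2 ∂(P n) ≤
              ∫ w, XX R u η w ∂(P n) := by
            refine integral_mono_of_nonneg (Filter.Eventually.of_forall fun w =>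
              Finset.sum_nonneg fun i _ => sq_nonneg _) hX0 (Filter.Eventually.of_forall fun w => ?_)
            have h2 : ∑ i : Fin n,
                (inner ℝ (gr u (xi η w) - η) (EuclideanSpace.single i 1) : ℝ) ^ 2 =
                ‖gr u (xi η w) - η‖ ^ 2 := by
              rw [EuclideanSpace.real_norm_sq_eq]
              refine Finset.sum_congr rfl fun i _ => ?_
              rw [EuclideanSpace.inner_single_right]
              simp
            simp only
            rw [h2]
            exact x1 w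
          rw [x4] at h1
          linarith
        · intro i _
          refine integ hPM ((hG.sub_const η).inner_const.pow_const 2).aestronglyMeasurable 0 0
            (by norm_num) ((R + ‖η‖) ^ 2) fun w => ?_
          rw [Real.norm_eq_abs, abs_pow, pow_zero, pow_zero, mul_one, mul_one]
          refine pow_le_pow_left₀ (abs_nonneg _) ?_ 2
          refine (abs_real_inner_le_norm _ _).trans ?_
          rw [EuclideanSpace.norm_single, norm_one, mul_one]
          exact (norm_sub_le _ _).trans (add_le_add (g1 _) le_rfl)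


end Pool.Agent.W125.FV
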